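import Mathlib
import Pool.Agent.Helper63.Bog.Structure

set_option autoImplicit false

namespace Pool.Agent.Results.MP_68cffc_co.FourThirds

open Finset

/-- `k` has the property in the definition of `f α`: for every `n ≥ 1` and every subset `A` of
`F_2^n` of density at least `α`, the set `2A - 2A` contains a linear subspace of codimension at
most `k`. The quantity `f α` of the problem is the least such `k`. -/
def Admissible (α : ℝ) (k : ℕ) : Prop :=
  ∀ n : ℕ, 1 ≤ n → ∀ A : Finset (Fin n → ZMod 2), α * 2 ^ n ≤ (#A : ℝ) →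
    ∃ V : Submodule (ZMod 2) (Fin n → ZMod 2),
      (∀ v ∈ V, ∃ a₁ ∈ A, ∃ a₂ ∈ A, ∃ a₃ ∈ A, ∃ a₄ ∈ A, v = a₁ + a₂ - a₃ - a₄) ∧
      n ≤ Module.finrank (ZMod 2) V + k

theorem exists_dim (t : ℕ) : ∃ d0 : ℕ, (4 * ((4 * t + 1) * d0) + 1) ^ 4 < 2 ^ d0 := by
  set M := 4 * (4 * t + 1) with hM
  refine ⟨4 * (2 * (8 * (M + 1))), ?_⟩
  set f := 8 * (M + 1) with hf
  have h1 : f < 2 ^ f := Nat.lt_two_pow_self
  have h2 : 4 * ((4 * t + 1) * (4 * (2 * f))) + 1 ≤ (M + 1) * (4 * (2 * f)) := by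
    have : 4 * ((4 * t + 1) * (4 * (2 * f))) = M * (4 * (2 * f)) := by
      rw [hM]
      ring
    rw [this]
    have : (M + 1) * (4 * (2 * f)) = M * (4 * (2 * f)) + 4 * (2 * f) := by ring
    omega
  have h3 : (M + 1) * (4 * (2 * f)) < 2 ^ (2 * f) := by
    calc (M + 1) * (4 * (2 * f)) = f * f := by
          rw [hf]
          ring
      _ < 2 ^ f * 2 ^ f := Nat.mul_lt_mul'' h1 h1
      _ = 2 ^ (2 * f) := by rw [← pow_add, two_mul]
  calc _ ≤ ((M + 1) * (4 * (2 * f))) ^ 4 := Nat.pow_le_pow_left h2 4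
    _ < (2 ^ (2 * f)) ^ 4 := Nat.pow_lt_pow_left h3 (by norm_num)
    _ = 2 ^ (4 * (2 * f)) := by rw [← pow_mul, mul_comm]

/-- The constant `4/3`: for every `δ > 0`, `f α ≥ (4/3 - δ) log₂ (1/α) - O_δ(1)`. -/
theorem result : ∀ δ : ℝ, 0 < δ → ∃ C : ℝ, ∀ α : ℝ, 0 < α → α ≤ 1 → ∀ k : ℕ,
    Admissible α k → (4 / 3 - δ) * Real.logb 2 (1 / α) - C ≤ (k : ℝ) := by
  classical
  intro δ hδ
  obtain ⟨t0, ht0⟩ := exists_nat_ge (1 / δ)
  set t := t0 + 1 with ht
  obtain ⟨d0, hd0⟩ := exists_dim t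
  obtain ⟨j0, hj0⟩ := Pool.Agent.Helper63.Bog.exists_good t (4 * 2 ^ d0)
  refine ⟨(4 * t + 1) + d0 + (4 / 3) * ((3 * t + 1) * (j0 + 2)), ?_⟩
  intro α hα0 hα1 k hk
  set L := Real.logb 2 (1 / α) with hL
  have hL0 : 0 ≤ L := Real.logb_nonneg (by norm_num) (by
    rw [le_div_iff₀ hα0]
    linarith)
  have ht1 : (1 : ℝ) ≤ t := by
    rw [ht]
    push_cast
    linarith [Nat.cast_nonneg (α := ℝ) t0]
  have h3t : (0 : ℝ) < 3 * t + 1 := by linarith
  have htδ : 1 ≤ δ * (3 * (3 * t + 1)) := by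
    have h1 : 1 ≤ δ * t0 := by
      rw [div_le_iff₀ hδ] at ht0
      linarith
    have h2 : (t : ℝ) = t0 + 1 := by rw [ht]; push_cast; ring
    rw [h2]
    nlinarith [Nat.cast_nonneg (α := ℝ) t0]
  set j := ⌊L / (3 * t + 1)⌋₊ with hj
  have hj1 : (j : ℝ) ≤ L / (3 * t + 1) := Nat.floor_le (by positivity)
  have hj2 : L / (3 * t + 1) < j + 1 := Nat.lt_floor_add_one _
  have hj1' : (3 * t + 1) * (j : ℝ) ≤ L := by
    rw [le_div_iff₀ h3t] at hj1
    linarith
  have hj2' : L < (3 * t + 1) * (j + 1) := by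
    rw [div_lt_iff₀ h3t] at hj2
    linarith
  by_cases hjj : j0 + 1 ≤ j
  · have hgood := hj0 j (by omega)
    set N := 2 ^ (t * j) with hN
    set n := (4 * t + 1) * j with hn
    obtain ⟨a, ha⟩ := hgood
    -- the points are distinct
    have hinj : Function.Injective a := by
      intro i i' hii
      by_contra hne
      have h1 : #({i, i'} : Finset (Fin N)) = 2 := card_pair hne
      have h2 : #({i, i'} : Finset (Fin N)) ≤ 4 * 2 ^ d0 := by
        rw [h1]
        have : 1 ≤ 2 ^ d0 := Nat.one_le_two_pow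
        omega
      have h3 := ha {i, i'} h2 {i} (by simp) (by
        intro p hp
        rw [mem_singleton] at hp
        subst hp
        apply Submodule.subset_span
        refine ⟨i', ?_, hii.symm⟩
        have : i' ≠ p := fun h => hne h.symm
        simp [this])
      rw [h1, card_singleton] at h3
      omega
    have hcardA : #(univ.image a) = N := by
      rw [card_image_of_injective _ hinj, card_univ, Fintype.card_fin]
    have hn1 : 1 ≤ n := by
      rw [hn]
      have : 1 ≤ j := by omega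
      nlinarith
    have hdens : α * 2 ^ n ≤ (#(univ.image a) : ℝ) := by
      rw [hcardA]
      have h1 : (2 : ℝ) ^ ((3 * t + 1) * j) ≤ 1 / α := by
        have h2 : ((2 : ℝ) ^ ((3 * t + 1) * j)) = (2 : ℝ) ^ ((3 * (t : ℝ) + 1) * (j : ℝ)) := by
          rw [← Real.rpow_natCast]
          push_cast
          ring_nf
        have h3 : 1 / α = (2 : ℝ) ^ L := by
          rw [hL, Real.rpow_logb (by norm_num) (by norm_num) (by positivity)]
        rw [h2, h3]
        exact Real.rpow_le_rpow_of_exponent_le (by norm_num) hj1'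
      have h4 : n = (3 * t + 1) * j + t * j := by rw [hn]; ring
      rw [h4, pow_add, hN]
      rw [le_div_iff₀ hα0] at h1
      have h5 : (0 : ℝ) < 2 ^ (t * j) := by positivity
      push_cast
      calc α * (2 ^ ((3 * t + 1) * j) * 2 ^ (t * j))
          = (2 ^ ((3 * t + 1) * j) * α) * 2 ^ (t * j) := by ring
        _ ≤ 1 * 2 ^ (t * j) := mul_le_mul_of_nonneg_right h1 h5.le
        _ = 2 ^ (t * j) := one_mul _
    obtain ⟨V, hV, hdim⟩ := hk n hn1 _ hdens
    have hlt := Pool.Agent.Helper63.Bog.dim_lt a ha hd0 V (by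
      intro v hv
      obtain ⟨a1, h1, a2, h2, a3, h3, a4, h4, h⟩ := hV v hv
      obtain ⟨i1, _, rfl⟩ := mem_image.1 h1
      obtain ⟨i2, _, rfl⟩ := mem_image.1 h2
      obtain ⟨i3, _, rfl⟩ := mem_image.1 h3
      obtain ⟨i4, _, rfl⟩ := mem_image.1 h4
      exact ⟨i1, i2, i3, i4, h⟩)
    have hk2 : n ≤ d0 + k := by omega
    have hk3 : ((4 * t + 1) * j : ℝ) ≤ d0 + k := by
      rw [hn] at hk2
      exact_mod_cast hk2
    have hmain : (4 / 3 - δ) * L ≤ (4 * t + 1) * (j + 1) := by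
      have h1 : (4 / 3 - δ) * (3 * (t : ℝ) + 1) ≤ 4 * t + 1 := by linarith
      have h2 : (4 / 3 - δ) * L * (3 * t + 1) ≤ (4 * t + 1) * (j + 1) * (3 * t + 1) := by
        calc (4 / 3 - δ) * L * (3 * t + 1) = ((4 / 3 - δ) * (3 * (t : ℝ) + 1)) * L := by ring
          _ ≤ (4 * t + 1) * L := mul_le_mul_of_nonneg_right h1 hL0
          _ ≤ (4 * t + 1) * ((3 * t + 1) * (j + 1)) :=
              mul_le_mul_of_nonneg_left hj2'.le (by positivity)
          _ = _ := by ring
      exact le_of_mul_le_mul_right h2 h3t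
    have h6 : (0 : ℝ) ≤ (4 / 3) * ((3 * t + 1) * (j0 + 2)) := by positivity
    nlinarith
  · have h1 : (j : ℝ) + 1 ≤ j0 + 2 := by
      have : j + 1 ≤ j0 + 2 := by omega
      exact_mod_cast this
    have h2 : L ≤ (3 * t + 1) * (j0 + 2) := by
      calc L ≤ (3 * t + 1) * (j + 1) := hj2'.le
        _ ≤ _ := mul_le_mul_of_nonneg_left h1 h3t.le
    have h3 : (4 / 3 - δ) * L ≤ (4 / 3) * L := by nlinarith
    have h4 : (0 : ℝ) ≤ (4 * t + 1) + d0 := by positivity
    have h5 : (0 : ℝ) ≤ (k : ℝ) := Nat.cast_nonneg k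
    nlinarith

end Pool.Agent.Results.MP_68cffc_co.FourThirds
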