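import Pool.Agent.BRK.Fin2

/-!
# Subspaces in the k-fold sumset of `A ⊆ F_2^n`: the codimension for `k ≥ 6` summands
-/

set_option autoImplicit false

namespace Pool.Agent.Results.MP_68cffc_co.ManySummands

open Real

/-- There is an absolute constant `C ≥ 1` such that for all `α` in `(0, 1/2]`, all `n`, all
`A ⊆ F_2^n` of density at least `α` and every even `k ≥ 6`, with `L = log₂ (1/α)`: the sumset
`A + ⋯ + A` (`k` summands) contains a linear subspace of codimension at most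
`C k L^(1 + C / (C + k - 4))`, and if `k ≥ C (1 + log L)` it contains a linear subspace of
codimension at most `4 L`. -/
theorem result : ∃ C : ℝ, 1 ≤ C ∧
    ∀ (n : ℕ) (A : Finset (Fin n → ZMod 2)) (α : ℝ) (k : ℕ), 0 < α → α ≤ 1 / 2 →
    α * 2 ^ n ≤ (A.card : ℝ) → Even k → 6 ≤ k →
    (∃ V : Submodule (ZMod 2) (Fin n → ZMod 2),
      (∀ v ∈ V, ∃ a : Fin k → (Fin n → ZMod 2), (∀ i, a i ∈ A) ∧ v = ∑ i, a i) ∧
      (n : ℝ) - Module.finrank (ZMod 2) V ≤
        C * k * (logb 2 (1 / α)) ^ (1 + C / (C + k - 4))) ∧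
    (C * (1 + log (logb 2 (1 / α))) ≤ k → ∃ V : Submodule (ZMod 2) (Fin n → ZMod 2),
      (∀ v ∈ V, ∃ a : Fin k → (Fin n → ZMod 2), (∀ i, a i ∈ A) ∧ v = ∑ i, a i) ∧
      (n : ℝ) - Module.finrank (ZMod 2) V ≤ 4 * logb 2 (1 / α)) := by
  obtain ⟨C, hC, h⟩ := Pool.Agent.BRK.fin_many2
  exact ⟨C, hC, fun n A α k h1 h2 h3 h4 h5 => h n A α k h1 h2 h3 h4 (by omega)⟩

end Pool.Agent.Results.MP_68cffc_co.ManySummands
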