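import Pool.Agent.BRQ.MainD

/-!
# A coset of codimension `O(ε^(-C) log 1/α)` in which `A + A` has density at least `α^ε`
-/

set_option autoImplicit false

namespace Pool.Agent.Results.MP_68cffc_co.PowerDensity

/-- There is an absolute constant `C` such that for all `ε` in `(0, 1]`, all `α` in `(0, 1/2]`, all
`n` and all `A ⊆ F_2^n` of density at least `α` there are a linear subspace `V` of codimension at
most `C ε^(-C) log (1/α)` and a vector `c` such that `A + A` contains at least `α^ε |V|` of the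
elements of the coset `c + V`. -/
theorem result : ∃ C : ℝ, ∀ (ε α : ℝ) (n : ℕ) (A : Finset (Fin n → ZMod 2)),
    0 < ε → ε ≤ 1 → 0 < α → α ≤ 1 / 2 → α * 2 ^ n ≤ (A.card : ℝ) →
    ∃ (V : Submodule (ZMod 2) (Fin n → ZMod 2)) (c : Fin n → ZMod 2),
      (n : ℝ) - Module.finrank (ZMod 2) V ≤ C * (1 / ε) ^ C * Real.log (1 / α) ∧
      α ^ ε * (Nat.card V : ℝ) ≤
        (Nat.card {v : Fin n → ZMod 2 // v ∈ V ∧ ∃ a ∈ A, ∃ b ∈ A, c + v = a + b} : ℝ) := by
  obtain ⟨C, -, h⟩ := Pool.Agent.BRQ.dense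
  exact ⟨C, fun ε α n A h1 h2 h3 h4 h5 => h ε n A α h1 h2 h3 h4 h5⟩

end Pool.Agent.Results.MP_68cffc_co.PowerDensity
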