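import Pool.Agent.BRQ.Main

/-!
# Subspaces of codimension `O((log 1/α)^2)` in `2A - 2A`
-/

set_option autoImplicit false

namespace Pool.Agent.Results.MP_68cffc_co.Quadratic

open Finset

/-- `k` has the property in the definition of `f α`: for every `n` and every subset `A` of
`F_2^n` of density at least `α`, the set `2A - 2A` contains a linear subspace of codimension at
most `k`. The quantity `f α` of the problem is the least such `k`. -/
def Admissible (α : ℝ) (k : ℕ) : Prop :=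
  ∀ n : ℕ, ∀ A : Finset (Fin n → ZMod 2), α * 2 ^ n ≤ (#A : ℝ) →
    ∃ V : Submodule (ZMod 2) (Fin n → ZMod 2),
      (∀ v ∈ V, ∃ a₁ ∈ A, ∃ a₂ ∈ A, ∃ a₃ ∈ A, ∃ a₄ ∈ A, v = a₁ + a₂ - a₃ - a₄) ∧
      n ≤ Module.finrank (ZMod 2) V + k

/-- `f α ≤ C (log (1/α))^2` for all `α` in `(0, 1/2]`, with an absolute constant `C`. -/
theorem result : ∃ C : ℝ, ∀ α : ℝ, 0 < α → α ≤ 1 / 2 →
    ∃ k : ℕ, Admissible α k ∧ (k : ℝ) ≤ C * Real.log (1 / α) ^ 2 := by
  obtain ⟨C, hC, h⟩ := Pool.Agent.BRQ.quad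
  refine ⟨C * 4, fun α hα0 hα1 => ?_⟩
  have h2 : (2 : ℝ) ≤ 1 / α := by
    rw [le_div_iff₀ hα0]
    linarith
  have hlog2 : 0 < Real.log 2 := Real.log_pos (by norm_num)
  have hlog : Real.log 2 ≤ Real.log (1 / α) := Real.log_le_log (by norm_num) h2
  have e1 : Real.log (2 / α) = Real.log 2 + Real.log (1 / α) := by
    rw [← Real.log_mul (by norm_num) (by positivity)]
    congr 1
    ring
  have e2 : Real.log (2 / α) ≤ 2 * Real.log (1 / α) := by
    rw [e1]
    linarith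
  have e3 : 0 ≤ Real.log (2 / α) := by
    rw [e1]
    linarith
  have e4 : C * Real.log (2 / α) ^ 2 ≤ C * 4 * Real.log (1 / α) ^ 2 := by
    have e5 : Real.log (2 / α) ^ 2 ≤ (2 * Real.log (1 / α)) ^ 2 := pow_le_pow_left₀ e3 e2 2
    calc C * Real.log (2 / α) ^ 2 ≤ C * (2 * Real.log (1 / α)) ^ 2 :=
          mul_le_mul_of_nonneg_left e5 hC.le
      _ = C * 4 * Real.log (1 / α) ^ 2 := by ring
  refine ⟨⌊C * Real.log (2 / α) ^ 2⌋₊, ?_, ?_⟩
  · intro n A hA
    obtain ⟨V, hV, hc⟩ := h n A α hα0 (by linarith) hA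
    refine ⟨V, hV, ?_⟩
    have h5 : n - Module.finrank (ZMod 2) V ≤ ⌊C * Real.log (2 / α) ^ 2⌋₊ := by
      apply Nat.le_floor
      have h6 : Module.finrank (ZMod 2) V ≤ n := by
        have := Submodule.finrank_le V
        rwa [Module.finrank_fin_fun] at this
      rw [Nat.cast_sub h6]
      exact hc
    omega
  · exact (Nat.floor_le (mul_nonneg hC.le (pow_nonneg e3 _))).trans e4

end Pool.Agent.Results.MP_68cffc_co.Quadratic
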